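import Mathlib
import Pool.Agent.Q23.LineGroupB

/-!
# MP_960512_al: the answer to Q1 is no

There is a finitely generated soluble group `G` in which *every* subgroup `⟨x, x^y⟩` is
finite-exponent-by-nilpotent, while `G` is not finite-exponent-by-nilpotent.
-/

namespace Pool.Agent.Results.MP_960512_al.Counterexample

/-- The class `𝔈𝔑`: `G` has a normal subgroup `K` of finite exponent such that `G / K` is
nilpotent. -/
def ExponentByNilpotent (G : Type) [Group G] : Prop :=
  ∃ (K : Subgroup G) (_ : K.Normal),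
    (∃ e : ℕ, 0 < e ∧ ∀ x ∈ K, x ^ e = 1) ∧ Group.IsNilpotent (G ⧸ K)

/-- `G` has a soluble normal subgroup of finite index. -/
def SolubleByFinite (G : Type) [Group G] : Prop :=
  ∃ K : Subgroup G, K.Normal ∧ K.FiniteIndex ∧ Group.IsSolvable K

/-- The class `(𝔛, ∞)*`: every infinite subset of `G` contains two distinct elements `x`, `y`
such that `⟨x, x^y⟩` lies in `𝔛`, where `x^y = y⁻¹ x y`. -/
def InfStar (X : ∀ (H : Type) [Group H], Prop) (G : Type) [Group G] : Prop :=
  ∀ S : Set G, S.Infinite → ∃ x ∈ S, ∃ y ∈ S, x ≠ y ∧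
    X (Subgroup.closure ({x, y⁻¹ * x * y} : Set G))

open Q23.Line DihedralGroup

lemma all_pairs (x y : G) :
    ExponentByNilpotent (Subgroup.closure ({x, y⁻¹ * x * y} : Set G)) := by
  obtain ⟨B, M, hM, hB⟩ := strip x y
  set H := Subgroup.closure ({x, y⁻¹ * x * y} : Set G)
  refine ⟨(pr.comp H.subtype).ker, inferInstance, ⟨2 ^ (M + 1), by positivity, ?_⟩, ?_⟩
  · intro h hh
    have hh' : ((h : G) : W).right = 1 := hh
    have h1 := (hB h h.2).1
    apply Subtype.ext
    apply Subtype.ext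
    have : (((h ^ (2 ^ (M + 1)) : H) : G) : W) = ((h : G) : W) ^ (2 ^ (M + 1)) := by
      simp
    rw [this, left_pow_of_right_one _ hh', Q_pow hM h1, map_one]
    rfl
  · have hinj : Function.Injective (QuotientGroup.kerLift (pr.comp H.subtype)) :=
      QuotientGroup.kerLift_injective _
    exact Subgroup.isNilpotent_of_ker_le_center (QuotientGroup.kerLift (pr.comp H.subtype))
      (by rw [(MonoidHom.ker_eq_bot_iff _).2 hinj]; exact bot_le)

lemma not_class : ¬ ExponentByNilpotent G := by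
  rintro ⟨K, hK, ⟨e, he, hKe⟩, hnil⟩
  obtain ⟨c, hc⟩ := Subgroup.nilpotent_iff_lowerCentralSeries.1 hnil
  obtain ⟨n, hn⟩ : ∃ n : ℕ, 2 ^ (c + 1) * e < 2 ^ n := ⟨2 ^ (c + 1) * e, Nat.lt_two_pow_self⟩
  let X : G := ⟨SemidirectProduct.inl (u 0), u_mem_G 0⟩
  let Y : G := ⟨SemidirectProduct.inl (u (d n)), u_mem_G (d n)⟩
  have h1 : iter X Y (c + 1) ∈ K := by
    rw [← QuotientGroup.eq_one_iff]
    have h2 := iter_mem_lcs ((QuotientGroup.mk' K) X) ((QuotientGroup.mk' K) Y) (c + 1)
    have h3 : (⊤ : Subgroup (G ⧸ K)).lowerCentralSeries (c + 1) ≤ ⊥ := by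
      rw [← hc]
      exact Subgroup.lowerCentralSeries_antitone _ (Nat.le_succ c)
    have h4 := h3 h2
    rw [← iter_map] at h4
    exact h4
  have h2 := hKe _ h1
  have h3 : iter (SemidirectProduct.inl (u 0) : W) (SemidirectProduct.inl (u (d n)))
      (c + 1) ^ e = 1 := by
    have := congrArg G.subtype h2
    rw [map_pow, iter_map, map_one] at this
    exact this
  rw [← iter_map, ← map_pow, ← map_one (SemidirectProduct.inl : P →* W)] at h3
  have h4 := SemidirectProduct.inl_injective h3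
  have h5 := congrArg (ev n 0) h4
  rw [map_pow, iter_map, map_one, u_zero_ev, u_d_ev, iter_dih, r_pow, one_def] at h5
  have h6 : (2 : ZMod (2 ^ n)) ^ (c + 1) * (1 - 0) * (e : ZMod (2 ^ n)) = 0 := by
    injection h5
  have h7 : ((2 ^ (c + 1) * e : ℕ) : ZMod (2 ^ n)) = 0 := by
    rw [← h6]
    push_cast
    ring
  rw [ZMod.natCast_eq_zero_iff] at h7
  have h8 : 0 < 2 ^ (c + 1) * e := by positivity
  exact absurd (Nat.le_of_dvd h8 h7) (by omega)

theorem result : ∃ (G : Type) (_ : Group G), Group.FG G ∧ Group.IsSolvable G ∧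
    SolubleByFinite G ∧ InfStar ExponentByNilpotent G ∧
    (∀ x y : G, ExponentByNilpotent (Subgroup.closure ({x, y⁻¹ * x * y} : Set G))) ∧
    ¬ ExponentByNilpotent G := by
  refine ⟨G, inferInstance, inferInstance, inferInstance, ?_, ?_, all_pairs, not_class⟩
  · exact ⟨⊤, inferInstance, inferInstance, inferInstance⟩
  · intro S hS
    obtain ⟨x, hx, y, hy, hxy⟩ := hS.nontrivial
    exact ⟨x, hx, y, hy, hxy, all_pairs x y⟩

end Pool.Agent.Results.MP_960512_al.Counterexample
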